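import Mathlib

set_option autoImplicit false
set_option linter.unusedSectionVars false

/-!
# The half-chromatic number of `Γ(K_n)` is `(√2 - 1) n + O(1)`

Lower bound: in one colour of a `1/2`-cover each ball has a home vertex (a nearest vertex of its
centre) and covers completely at most the edge containing its centre; a ball of maximal offset
points to a vertex which is no home.  Counting the edges of `K_n` gives
`n (n - 1) + 2 t ≤ 2 c (n - 1) + t (t - 1)`, `t ≤ c` being the number of balls centred at vertices.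

Upper bound: an explicit arrangement.  The vertices are `Z` (one centre in each of `c` colours) and
`W` (`2 m` vertices, `2 m² + 3 c ≤ c²`).  In `m` colours `W` carries a double star, and in the other
`c - m` colours `Z ∪ W` carries a staircase (a caterpillar winding once around `W`); one extra
colour provides a ball of smallest offset at each vertex of `W`.
-/

namespace Pool.Agent.Results.MP_4befb3_co.SqrtTwo

open Finset

/-- A point of the continuous graph `Γ(G)` of a finite simple graph `G`, in barycentric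
coordinates: nonnegative weights on the vertices with sum `1`, whose support is contained in a
single vertex or in the two ends of an edge.  The point of the edge `uv` at distance `t` from `u`
is the one with weights `1 - t` at `u` and `t` at `v`. -/
structure Pt {V : Type} [Fintype V] (G : SimpleGraph V) where
  w : V → ℝ
  nonneg : ∀ v, 0 ≤ w v
  sum_eq : ∑ v, w v = 1
  supp : ∃ u v, (u = v ∨ G.Adj u v) ∧ ∀ x, w x ≠ 0 → x = u ∨ x = v

/-- The lengths of the direct routes from `p` to `q`: leave the edge of `p` through an end `a`,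
walk along a shortest path of `G` to an end `b` of the edge of `q` and go on to `q`; or, if `p` and
`q` lie on a common (closed) edge `uv`, stay on this edge. -/
def routes {V : Type} [Fintype V] {G : SimpleGraph V} (p q : Pt G) : Set ℝ :=
  {l | ∃ a b, p.w a ≠ 0 ∧ q.w b ≠ 0 ∧ G.Reachable a b ∧
      l = (1 - p.w a) + (G.dist a b : ℝ) + (1 - q.w b)} ∪
  {l | ∃ u v, G.Adj u v ∧ p.w u + p.w v = 1 ∧ q.w u + q.w v = 1 ∧ l = |p.w u - q.w u|}

/-- The distance of two points of `Γ(G)` (for connected `G`): the least length of a route. -/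
noncomputable def pdist {V : Type} [Fintype V] {G : SimpleGraph V} (p q : Pt G) : ℝ :=
  sInf (routes p q)

/-- The closed ball with centre `p` and radius `r`. -/
def ball {V : Type} [Fintype V] {G : SimpleGraph V} (p : Pt G) (r : ℝ) : Set (Pt G) :=
  {q | pdist p q ≤ r}

/-- `Γ(G)` is `(r,c)`-colourable: there are a family `F` of closed balls of radius `r` covering
`Γ(G)` and a map `f` from `F` to `c` colours such that distinct balls which meet get different
colours. -/
def Colourable {V : Type} [Fintype V] (G : SimpleGraph V) (r : ℝ) (c : ℕ) : Prop :=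
  ∃ F : Set (Set (Pt G)), (∀ B ∈ F, ∃ p, B = ball p r) ∧ ⋃₀ F = Set.univ ∧
    ∃ f : F → Fin c, ∀ B B' : F, B ≠ B' → (B.1 ∩ B'.1).Nonempty → f B ≠ f B'

/-- The `r`-chromatic number of `Γ(G)`: the least `c` such that `Γ(G)` is `(r,c)`-colourable. -/
noncomputable def chi {V : Type} [Fintype V] (G : SimpleGraph V) (r : ℝ) : ℕ :=
  sInf {c | Colourable G r c}

section Basic

variable {V : Type} [Fintype V] {G : SimpleGraph V}

lemma Pt.le_one (p : Pt G) (v : V) : p.w v ≤ 1 := by
  rw [← p.sum_eq]
  exact Finset.single_le_sum (fun x _ => p.nonneg x) (mem_univ v)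

lemma Pt.add_le (p : Pt G) {u v : V} (h : u ≠ v) : p.w u + p.w v ≤ 1 := by
  classical
  rw [← p.sum_eq, ← Finset.sum_pair h]
  exact Finset.sum_le_sum_of_subset_of_nonneg (subset_univ _) (fun x _ _ => p.nonneg x)

lemma Pt.add_three (p : Pt G) {u v x : V} (h : u ≠ v) (hx : x ≠ u) (hx' : x ≠ v) :
    p.w x + p.w u + p.w v ≤ 1 := by
  classical
  have : ∑ y ∈ ({x, u, v} : Finset V), p.w y = p.w x + p.w u + p.w v := by
    rw [Finset.sum_insert (by simp [hx, hx']), Finset.sum_pair h]; ring
  rw [← p.sum_eq, ← this]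
  exact Finset.sum_le_sum_of_subset_of_nonneg (subset_univ _) (fun x _ _ => p.nonneg x)

lemma Pt.mem_of_pos (p : Pt G) {u v x : V} (h : p.w u + p.w v = 1) (h' : u ≠ v)
    (hx : 0 < p.w x) : x = u ∨ x = v := by
  by_contra hc
  push Not at hc
  have := p.add_three h' hc.1 hc.2
  linarith

lemma routes_finite (p q : Pt G) : (routes p q).Finite := by
  apply Set.Finite.union
  · apply Set.Finite.subset (Set.finite_range (fun ab : V × V =>
      (1 - p.w ab.1) + (G.dist ab.1 ab.2 : ℝ) + (1 - q.w ab.2)))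
    rintro l ⟨a, b, _, _, _, rfl⟩
    exact ⟨(a, b), rfl⟩
  · apply Set.Finite.subset (Set.finite_range (fun u : V => |p.w u - q.w u|))
    rintro l ⟨u, v, _, _, _, rfl⟩
    exact ⟨u, rfl⟩

lemma Pt.exists_ne (p : Pt G) : ∃ a, p.w a ≠ 0 := by
  by_contra h
  push Not at h
  have := p.sum_eq
  simp [h] at this

lemma mem_ball_iff_routes [Nonempty V] (hG : G.Connected) (p q : Pt G) (r : ℝ) :
    q ∈ ball p r ↔ ∃ l ∈ routes p q, l ≤ r := by
  have hne : (routes p q).Nonempty := by
    obtain ⟨a, ha⟩ := p.exists_ne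
    obtain ⟨b, hb⟩ := q.exists_ne
    exact ⟨_, Or.inl ⟨a, b, ha, hb, hG.preconnected a b, rfl⟩⟩
  constructor
  · intro h
    exact ⟨_, hne.csInf_mem (routes_finite p q), h⟩
  · rintro ⟨l, hl, hr⟩
    exact (csInf_le (routes_finite p q).bddBelow hl).trans hr

end Basic

section Complete

variable {V : Type} [Fintype V] [Nonempty V]

lemma mem_ball_half (p q : Pt (⊤ : SimpleGraph V)) :
    q ∈ ball p (1/2) ↔ (∃ a, 3/2 ≤ p.w a + q.w a) ∨
      ∃ u v, u ≠ v ∧ p.w u + p.w v = 1 ∧ q.w u + q.w v = 1 ∧ |p.w u - q.w u| ≤ 1/2 := by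
  rw [mem_ball_iff_routes SimpleGraph.connected_top]
  constructor
  · rintro ⟨l, (⟨a, b, ha, hb, -, rfl⟩ | ⟨u, v, huv, h1, h2, rfl⟩), hl⟩
    · left
      have h1 := p.le_one a
      have h2 := q.le_one b
      by_cases hab : a = b
      · subst hab
        refine ⟨a, ?_⟩
        simp at hl
        linarith
      · exfalso
        have h3 : 1 ≤ (⊤ : SimpleGraph V).dist a b :=
          (SimpleGraph.connected_top.preconnected a b).pos_dist_of_ne hab
        have h4 : (1 : ℝ) ≤ ((⊤ : SimpleGraph V).dist a b : ℝ) := by exact_mod_cast h3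
        linarith
    · right
      exact ⟨u, v, huv, h1, h2, hl⟩
  · rintro (⟨a, ha⟩ | ⟨u, v, huv, h1, h2, h3⟩)
    · have h1 := p.le_one a
      have h2 := q.le_one a
      refine ⟨_, Or.inl ⟨a, a, ?_, ?_, SimpleGraph.Reachable.refl a, rfl⟩, ?_⟩
      · intro h; rw [h] at ha; linarith
      · intro h; rw [h] at ha; linarith
      · simp; linarith
    · exact ⟨_, Or.inr ⟨u, v, huv, h1, h2, rfl⟩, h3⟩

/-- ball centred at a vertex -/
lemma mem_ball_vertex (p q : Pt (⊤ : SimpleGraph V)) (u : V) (h : p.w u = 1) :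
    q ∈ ball p (1/2) ↔ 1/2 ≤ q.w u := by
  rw [mem_ball_half]
  constructor
  · rintro (⟨a, ha⟩ | ⟨a, b, hab, h1, h2, h3⟩)
    · by_cases hau : a = u
      · subst hau; linarith
      · have := p.add_le hau
        have := q.le_one a
        have := p.nonneg a
        linarith
    · rw [abs_le] at h3
      rcases p.mem_of_pos h1 hab (x := u) (by linarith) with rfl | rfl
      · linarith
      · linarith
  · intro hq
    left
    exact ⟨u, by linarith⟩

/-- ball centred at the point of the edge `uv` at distance `x ≤ 1/2` from `u` -/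
lemma mem_ball_edge (p q : Pt (⊤ : SimpleGraph V)) (u v : V) (x : ℝ) (huv : u ≠ v) (hx : 0 < x)
    (hx' : x ≤ 1/2) (h : p.w u = 1 - x) (h' : p.w v = x) :
    q ∈ ball p (1/2) ↔ 1/2 + x ≤ q.w u ∨ (q.w u + q.w v = 1 ∧ q.w v ≤ 1/2 + x) := by
  rw [mem_ball_half]
  constructor
  · rintro (⟨a, ha⟩ | ⟨a, b, hab, h1, h2, h3⟩)
    · by_cases hau : a = u
      · subst hau; left; linarith
      · by_cases hav : a = v
        · subst hav
          have := q.le_one a
          have := q.nonneg u
          have := q.add_le huv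
          right
          constructor
          · linarith
          · linarith
        · have := p.add_three huv hau hav
          have := q.le_one a
          have := p.nonneg a
          linarith
    · right
      rw [abs_le] at h3
      have e1 := p.mem_of_pos h1 hab (x := u) (by linarith)
      have e2 := p.mem_of_pos h1 hab (x := v) (by linarith)
      rcases e1 with rfl | rfl
      · rcases e2 with rfl | rfl
        · exact absurd rfl huv
        · exact ⟨h2, by linarith⟩
      · rcases e2 with rfl | rfl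
        · exact ⟨by linarith, by linarith⟩
        · exact absurd rfl huv
  · rintro (hq | ⟨h1, h2⟩)
    · left; exact ⟨u, by linarith⟩
    · right
      refine ⟨u, v, huv, by linarith, h1, ?_⟩
      have := q.nonneg v
      rw [abs_le]; constructor <;> linarith

end Complete


section Arrangement

/-- A combinatorial arrangement: `cen i u` is a ball of colour `i` centred at `u`; `arc i u w k`
a ball of colour `i` centred on the edge `uw` at distance `k / (2 M)` from `u`. -/
structure Arr (V C : Type) (M : ℕ) where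
  cen : C → V → Prop
  arc : C → V → V → ℕ → Prop
  cen_unique : ∀ i u v, cen i u → cen i v → u = v
  arc_fun : ∀ i u w k w' k', arc i u w k → arc i u w' k' → w = w' ∧ k = k'
  arc_ne : ∀ i u w k, arc i u w k → u ≠ w ∧ 1 ≤ k ∧ k < M
  mono : ∀ i u w k w' k', arc i u w k → arc i w w' k' → k < k'
  cen_out : ∀ i z w k, cen i z → ¬ arc i z w k
  cen_in : ∀ i z u k, cen i z → ¬ arc i u z k
  low : ∀ u, (∃ i, cen i u) ∨ ∃ i w, arc i u w 1
  cover : ∀ u v, u ≠ v → ((∃ i, cen i u) ∧ ∃ i, cen i v) ∨ ∃ i k, arc i u v k ∨ arc i v u k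

variable {V C : Type} [Fintype V] [Fintype C] [Nonempty V] {M : ℕ}

/-- The point `u`. -/
def vtx [DecidableEq V] (u : V) : Pt (⊤ : SimpleGraph V) where
  w := fun a => if a = u then 1 else 0
  nonneg := by intro v; split_ifs <;> norm_num
  sum_eq := by simp
  supp := ⟨u, u, Or.inl rfl, by intro x hx; left; by_contra h; simp [h] at hx⟩

/-- The point of the edge `uv` at distance `x` from `u`. -/
def edg [DecidableEq V] (u v : V) (h : u ≠ v) (x : ℝ) (h0 : 0 ≤ x) (h1 : x ≤ 1) :
    Pt (⊤ : SimpleGraph V) where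
  w := fun a => (if a = u then (1 - x) else 0) + (if a = v then x else 0)
  nonneg := by
    intro v
    split_ifs <;> linarith
  sum_eq := by simp [Finset.sum_add_distrib]
  supp := ⟨u, v, Or.inr h, by
    intro y hy
    by_contra hc
    push Not at hc
    simp [hc.1, hc.2] at hy⟩

/-- `S` is the ball with home `u` and colour `i` of the arrangement. -/
def IsB (A : Arr V C M) (i : C) (u : V) (S : Set (Pt (⊤ : SimpleGraph V))) : Prop :=
  ∃ p : Pt (⊤ : SimpleGraph V), S = ball p (1/2) ∧
    ((A.cen i u ∧ p.w u = 1) ∨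
      ∃ w k, A.arc i u w k ∧ p.w u = 1 - (k : ℝ) / (2 * M) ∧ p.w w = (k : ℝ) / (2 * M))

lemma Pt.pos_or (q : Pt (⊤ : SimpleGraph V)) {u u' w' : V} (h : u ≠ u')
    (h1 : q.w u' + q.w w' = 1) (hw : u' ≠ w') (hu : 0 < q.w u) : u = w' := by
  rcases q.mem_of_pos h1 hw hu with h2 | h2
  · exact absurd h2 h
  · exact h2

lemma frac_bounds {k M : ℕ} (h1 : 1 ≤ k) (h2 : k < M) :
    (0 : ℝ) < (k : ℝ) / (2 * M) ∧ (k : ℝ) / (2 * M) < 1 / 2 := by
  have hk : (0 : ℝ) < k := by exact_mod_cast h1
  have hM : (k : ℝ) < M := by exact_mod_cast h2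
  have hM0 : (0 : ℝ) < 2 * M := by linarith
  constructor
  · positivity
  · rw [div_lt_div_iff₀ hM0 (by norm_num)]; linarith

lemma frac_lt {k k' M : ℕ} (h : k < k') (h2 : k' < M) :
    (k : ℝ) / (2 * M) < (k' : ℝ) / (2 * M) := by
  have hk : (k : ℝ) < k' := by exact_mod_cast h
  have hM : (k' : ℝ) < M := by exact_mod_cast h2
  have hk0 : (0 : ℝ) ≤ k := by positivity
  have hM0 : (0 : ℝ) < 2 * M := by linarith
  exact div_lt_div_of_pos_right hk hM0

lemma IsB_disjoint (A : Arr V C M) {i : C} {u u' : V} (h : u ≠ u')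
    {S S' : Set (Pt (⊤ : SimpleGraph V))} (hS : IsB A i u S) (hS' : IsB A i u' S')
    {q : Pt (⊤ : SimpleGraph V)} (hq : q ∈ S) (hq' : q ∈ S') : False := by
  obtain ⟨p, rfl, hp⟩ := hS
  obtain ⟨p', rfl, hp'⟩ := hS'
  rcases hp with ⟨hc, hp⟩ | ⟨w, k, harc, hp, hpw⟩
  · rw [mem_ball_vertex p q u hp] at hq
    rcases hp' with ⟨hc', hp'⟩ | ⟨w', k', harc', hp', hpw'⟩
    · exact h (A.cen_unique i u u' hc hc')
    · obtain ⟨hne, h1, h2⟩ := A.arc_ne i u' w' k' harc'
      obtain ⟨b1, b2⟩ := frac_bounds h1 h2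
      rw [mem_ball_edge p' q u' w' _ hne b1 b2.le hp' hpw'] at hq'
      rcases hq' with hq' | ⟨e1, e2⟩
      · have := q.add_le h
        linarith
      · have := q.pos_or h e1 hne (by linarith)
        subst this
        exact A.cen_in i u u' k' hc harc'
  · obtain ⟨hne, h1, h2⟩ := A.arc_ne i u w k harc
    obtain ⟨b1, b2⟩ := frac_bounds h1 h2
    rw [mem_ball_edge p q u w _ hne b1 b2.le hp hpw] at hq
    rcases hp' with ⟨hc', hp'⟩ | ⟨w', k', harc', hp', hpw'⟩
    · rw [mem_ball_vertex p' q u' hp'] at hq'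
      rcases hq with hq | ⟨e1, e2⟩
      · have := q.add_le h
        linarith
      · have := q.pos_or h.symm e1 hne (by linarith)
        subst this
        exact A.cen_in i u' u k hc' harc
    · obtain ⟨hne', h1', h2'⟩ := A.arc_ne i u' w' k' harc'
      obtain ⟨b1', b2'⟩ := frac_bounds h1' h2'
      rw [mem_ball_edge p' q u' w' _ hne' b1' b2'.le hp' hpw'] at hq'
      rcases hq with hq | ⟨e1, e2⟩
      · rcases hq' with hq' | ⟨e1', e2'⟩
        · have := q.add_le h
          linarith
        · have := q.pos_or h e1' hne' (by linarith)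
          subst this
          have hlt := A.mono i u' u k' w k harc' harc
          have := frac_lt hlt h2
          linarith
      · rcases hq' with hq' | ⟨e1', e2'⟩
        · have := q.pos_or h.symm e1 hne (by linarith)
          subst this
          have hlt := A.mono i u u' k w' k' harc harc'
          have := frac_lt hlt h2'
          linarith
        · have f1 := q.pos_or h e1' hne' (by linarith)
          have f2 := q.pos_or h.symm e1 hne (by linarith)
          subst f1
          subst f2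
          have hlt := A.mono _ _ _ _ _ _ harc harc'
          have hlt' := A.mono _ _ _ _ _ _ harc' harc
          omega

lemma IsB_unique (A : Arr V C M) {i : C} {u : V}
    {S S' : Set (Pt (⊤ : SimpleGraph V))} (hS : IsB A i u S) (hS' : IsB A i u S') : S = S' := by
  obtain ⟨p, rfl, hp⟩ := hS
  obtain ⟨p', rfl, hp'⟩ := hS'
  ext q
  rcases hp with ⟨hc, hp⟩ | ⟨w, k, harc, hp, hpw⟩
  · rcases hp' with ⟨hc', hp'⟩ | ⟨w', k', harc', hp', hpw'⟩
    · rw [mem_ball_vertex p q u hp, mem_ball_vertex p' q u hp']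
    · exact absurd harc' (A.cen_out i u w' k' hc)
  · rcases hp' with ⟨hc', hp'⟩ | ⟨w', k', harc', hp', hpw'⟩
    · exact absurd harc (A.cen_out i u w k hc')
    · obtain ⟨rfl, rfl⟩ := A.arc_fun _ _ _ _ _ _ harc harc'
      obtain ⟨hne, h1, h2⟩ := A.arc_ne i u w k harc
      obtain ⟨b1, b2⟩ := frac_bounds h1 h2
      rw [mem_ball_edge p q u w _ hne b1 b2.le hp hpw,
        mem_ball_edge p' q u w _ hne b1 b2.le hp' hpw']

/-- existence of the balls of an arrangement -/
lemma exists_cen (A : Arr V C M) {i : C} {u : V} (h : A.cen i u) (q : Pt (⊤ : SimpleGraph V))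
    (hq : 1 / 2 ≤ q.w u) : ∃ S, IsB A i u S ∧ q ∈ S := by
  classical
  refine ⟨ball (vtx u) (1/2), ⟨vtx u, rfl, Or.inl ⟨h, by simp [vtx]⟩⟩, ?_⟩
  rw [mem_ball_vertex _ q u (by simp [vtx])]
  exact hq

lemma exists_arc (A : Arr V C M) {i : C} {u w : V} {k : ℕ} (h : A.arc i u w k)
    (q : Pt (⊤ : SimpleGraph V))
    (hq : 1 / 2 + (k : ℝ) / (2 * M) ≤ q.w u ∨
      (q.w u + q.w w = 1 ∧ q.w w ≤ 1 / 2 + (k : ℝ) / (2 * M))) : ∃ S, IsB A i u S ∧ q ∈ S := by
  classical
  obtain ⟨hne, h1, h2⟩ := A.arc_ne i u w k h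
  obtain ⟨b1, b2⟩ := frac_bounds h1 h2
  have e1 : (edg u w hne ((k : ℝ) / (2 * M)) b1.le (by linarith)).w u
      = 1 - (k : ℝ) / (2 * M) := by simp [edg, hne]
  have e2 : (edg u w hne ((k : ℝ) / (2 * M)) b1.le (by linarith)).w w
      = (k : ℝ) / (2 * M) := by simp [edg, hne.symm]
  refine ⟨ball (edg u w hne ((k : ℝ) / (2 * M)) b1.le (by linarith)) (1/2),
    ⟨_, rfl, Or.inr ⟨w, k, h, e1, e2⟩⟩, ?_⟩
  rw [mem_ball_edge _ q u w _ hne b1 b2.le e1 e2]
  exact hq

lemma exists_low (A : Arr V C M) {u : V} {k : ℕ} (hk : 1 ≤ k) (q : Pt (⊤ : SimpleGraph V))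
    (hq : 1 / 2 + (k : ℝ) / (2 * M) ≤ q.w u) : ∃ i u S, IsB A i u S ∧ q ∈ S := by
  rcases A.low u with ⟨i, hi⟩ | ⟨i, w, hi⟩
  · have : (0 : ℝ) ≤ (k : ℝ) / (2 * M) := by positivity
    obtain ⟨S, hS⟩ := exists_cen A hi q (by linarith)
    exact ⟨i, u, S, hS⟩
  · have : ((1 : ℕ) : ℝ) / (2 * M) ≤ (k : ℝ) / (2 * M) := by
      apply div_le_div_of_nonneg_right _ (by positivity)
      exact_mod_cast hk
    obtain ⟨S, hS⟩ := exists_arc A hi q (Or.inl (by linarith))
    exact ⟨i, u, S, hS⟩

lemma covered (A : Arr V C M) (q : Pt (⊤ : SimpleGraph V)) : ∃ i u S, IsB A i u S ∧ q ∈ S := by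
  classical
  obtain ⟨u, v, -, huv⟩ := q.supp
  by_cases h1 : ∃ a, q.w a = 1
  · obtain ⟨a, ha⟩ := h1
    rcases A.low a with ⟨i, hi⟩ | ⟨i, w, hi⟩
    · obtain ⟨S, hS⟩ := exists_cen A hi q (by rw [ha]; norm_num)
      exact ⟨i, a, S, hS⟩
    · obtain ⟨_, h1, h2⟩ := A.arc_ne i a w 1 hi
      obtain ⟨b1, b2⟩ := frac_bounds h1 h2
      obtain ⟨S, hS⟩ := exists_arc A hi q (Or.inl (by rw [ha]; linarith))
      exact ⟨i, a, S, hS⟩
  · have hne : u ≠ v := by
      rintro rfl
      apply h1
      refine ⟨u, ?_⟩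
      have := q.sum_eq
      rw [Finset.sum_eq_single u] at this
      · exact this
      · intro b _ hb
        by_contra hc
        rcases huv b hc with h | h <;> exact hb h
      · simp
    have hsum : q.w u + q.w v = 1 := by
      have := q.sum_eq
      rw [← Finset.sum_subset (subset_univ {u, v}), Finset.sum_pair hne] at this
      · exact this
      · intro x _ hx
        by_contra hc
        rcases huv x hc with h | h <;> simp [h] at hx
    have key : ∀ u v : V, u ≠ v → q.w u + q.w v = 1 → ∀ i k, A.arc i u v k →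
        ∃ i u S, IsB A i u S ∧ q ∈ S := by
      intro u v hne hsum i k harc
      by_cases hle : q.w v ≤ 1 / 2 + (k : ℝ) / (2 * M)
      · obtain ⟨S, hS⟩ := exists_arc A harc q (Or.inr ⟨hsum, hle⟩)
        exact ⟨i, u, S, hS⟩
      · exact exists_low A (A.arc_ne i u v k harc).2.1 q (not_le.mp hle).le
    rcases A.cover u v hne with ⟨⟨i, hi⟩, ⟨j, hj⟩⟩ | ⟨i, k, h | h⟩
    · by_cases hle : 1 / 2 ≤ q.w u
      · obtain ⟨S, hS⟩ := exists_cen A hi q hle
        exact ⟨i, u, S, hS⟩
      · obtain ⟨S, hS⟩ := exists_cen A hj q (by linarith)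
        exact ⟨j, v, S, hS⟩
    · exact key u v hne hsum i k h
    · exact key v u hne.symm (by linarith) i k h

theorem colourable_of_arr (A : Arr V C M) :
    Colourable (⊤ : SimpleGraph V) (1/2) (Fintype.card C) := by
  classical
  refine ⟨{S | ∃ i u, IsB A i u S}, ?_, ?_, ?_⟩
  · rintro B ⟨i, u, p, hp, -⟩
    exact ⟨p, hp⟩
  · rw [Set.eq_univ_iff_forall]
    intro q
    obtain ⟨i, u, S, hS, hq⟩ := covered A q
    exact ⟨S, ⟨i, u, hS⟩, hq⟩
  · have hch : ∀ B : {S | ∃ i u, IsB A i u S}, ∃ i, ∃ u, IsB A i u B.1 := fun B => B.2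
    choose f hf using hch
    refine ⟨fun B => Fintype.equivFin C (f B), ?_⟩
    rintro B B' hne ⟨q, hq, hq'⟩ heq
    have heq' : f B = f B' := (Fintype.equivFin C).injective heq
    obtain ⟨u, hu⟩ := hf B
    obtain ⟨u', hu'⟩ := hf B'
    rw [← heq'] at hu'
    by_cases h : u = u'
    · subst h
      exact hne (Subtype.ext (IsB_unique A hu hu'))
    · exact IsB_disjoint A h hu hu' hq hq'

end Arrangement

section Explicit

/-- `A t = ⌊2 m t / c⌋`. -/
def fA (c m t : ℕ) : ℕ := t * (2 * m) / c

lemma fA_add (c m t : ℕ) (hc : 0 < c) : fA c m (t + c) = fA c m t + 2 * m := by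
  unfold fA
  rw [add_mul, Nat.add_mul_div_left _ _ hc]

lemma fA_succ (c m t : ℕ) (hc : 0 < c) (h : c ≤ 2 * m) : fA c m t + 1 ≤ fA c m (t + 1) := by
  unfold fA
  have : t * (2 * m) / c + 1 = (t * (2 * m) + c) / c := by
    rw [Nat.add_div_right _ hc]
  rw [this]
  apply Nat.div_le_div_right
  rw [add_mul]; omega

lemma fA_succ_le (c m t : ℕ) (hc : 0 < c) (h : m ≤ c) : fA c m (t + 1) ≤ fA c m t + 2 := by
  unfold fA
  have : t * (2 * m) / c + 2 = (t * (2 * m) + c + c) / c := by
    rw [Nat.add_div_right _ hc, Nat.add_div_right _ hc]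
  rw [this]
  apply Nat.div_le_div_right
  rw [add_mul]; omega

lemma fA_super (c m s t : ℕ) : fA c m s + fA c m t ≤ fA c m (s + t) := by
  unfold fA
  rw [add_mul]
  exact Nat.div_add_div_le_add_div

lemma fA_strictMono (c m : ℕ) (hc : 0 < c) (h : c ≤ 2 * m) : StrictMono (fA c m) := by
  apply strictMono_nat_of_lt_succ
  intro n
  exact fA_succ c m n hc h

/-- the staircase of colour `i` -/
def fy (c m i t : ℕ) : ℕ := fA c m (2 * i + t) + i

lemma fy_strictMono (c m i : ℕ) (hc : 0 < c) (h : c ≤ 2 * m) : StrictMono (fy c m i) := by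
  intro s t hst
  unfold fy
  have := fA_strictMono c m hc h (show 2 * i + s < 2 * i + t by omega)
  omega

lemma fy_add (c m i t : ℕ) (hc : 0 < c) : fy c m i (t + c) = fy c m i t + 2 * m := by
  unfold fy
  rw [← add_assoc, fA_add _ _ _ hc]; ring

lemma idx_unique (f : ℕ → ℕ) (hf : StrictMono f) {s t P : ℕ} (h1 : f s ≤ P) (h2 : P < f (s + 1))
    (h3 : f t ≤ P) (h4 : P < f (t + 1)) : s = t := by
  have a := hf.lt_iff_lt.mp (lt_of_le_of_lt h1 h4)
  have b := hf.lt_iff_lt.mp (lt_of_le_of_lt h3 h2)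
  omega

lemma rep_unique {a L P Q : ℕ} (h1 : a ≤ P) (h2 : P < a + L) (h3 : a ≤ Q) (h4 : Q < a + L)
    (h : P % L = Q % L) : P = Q := by
  rcases le_total P Q with hle | hle
  · have h5 : (Q - P) % L = 0 := by
      have : P ≡ Q [MOD L] := h
      exact Nat.mod_eq_zero_of_dvd ((Nat.modEq_iff_dvd' hle).mp this)
    have h6 : Q - P < L := by omega
    rw [Nat.mod_eq_of_lt h6] at h5
    omega
  · have h5 : (P - Q) % L = 0 := by
      have : Q ≡ P [MOD L] := h.symm
      exact Nat.mod_eq_zero_of_dvd ((Nat.modEq_iff_dvd' hle).mp this)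
    have h6 : P - Q < L := by omega
    rw [Nat.mod_eq_of_lt h6] at h5
    omega

lemma fy_idx (c m i : ℕ) (hc : 0 < c) (h : c ≤ 2 * m) {s t P Q : ℕ} (hs : s < c) (ht : t < c)
    (h1 : fy c m i s ≤ P) (h2 : P < fy c m i (s + 1)) (h3 : fy c m i t ≤ Q)
    (h4 : Q < fy c m i (t + 1)) (hPQ : P % (2 * m) = Q % (2 * m)) : s = t ∧ P = Q := by
  have mono := fy_strictMono c m i hc h
  have e0 := fy_add c m i 0 hc
  rw [zero_add] at e0
  have b1 := mono.monotone (show 0 ≤ s by omega)
  have b2 := mono.monotone (show s + 1 ≤ c by omega)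
  have b3 := mono.monotone (show 0 ≤ t by omega)
  have b4 := mono.monotone (show t + 1 ≤ c by omega)
  have : P = Q := rep_unique (a := fy c m i 0) (L := 2 * m) (by omega) (by omega) (by omega)
    (by omega) hPQ
  subst this
  exact ⟨idx_unique _ mono h1 h2 h3 h4, rfl⟩

lemma add_mod_inj {c i s t : ℕ} (hs : s < c) (ht : t < c) (h : (i + s) % c = (i + t) % c) :
    s = t := by
  have h1 : i + s ≡ i + t [MOD c] := h
  have h2 : s ≡ t [MOD c] := Nat.ModEq.add_left_cancel' i h1
  exact Nat.ModEq.eq_of_lt_of_lt h2 hs ht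

/-- The positions not adjacent to the vertex `z` in the staircases. -/
def fR (c m : ℕ) (z : Fin c) (p : Fin (2 * m)) : Prop :=
  ¬ ∃ j P, j + m < c ∧ j ≠ z.val ∧ fA c m (z.val + j) + j ≤ P ∧
    P ≤ fA c m (z.val + j + 1) + j ∧ P % (2 * m) = p.val

/-- The arcs of the explicit arrangement. -/
def farc {c m : ℕ} (g : Fin c → Fin (2 * m) → ℕ) :
    Option (Fin c) → Fin c ⊕ Fin (2 * m) → Fin c ⊕ Fin (2 * m) → ℕ → Prop
  | none, .inr _, .inl z, k => z.val = 0 ∧ k = 1
  | some i, .inr p, .inl z, k => i.val + m < c ∧ ∃ t P, 1 ≤ t ∧ t < c ∧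
      z.val = (i.val + t) % c ∧ fy c m i t ≤ P ∧ P < fy c m i (t + 1) ∧
      P % (2 * m) = p.val ∧ k = 2 * t + 1
  | some i, .inl z, .inr p, k => (i.val + m < c ∧ ∃ t, 1 ≤ t ∧ t < c ∧
      z.val = (i.val + t) % c ∧ fy c m i (t + 1) % (2 * m) = p.val ∧ k = 2 * t + 2) ∨
      (c ≤ i.val + m ∧ fR c m z p ∧ g z p + c = i.val + m ∧ k = 1)
  | some i, .inr p, .inr q, k => c ≤ i.val + m ∧
      ((p.val / 2 + c ≠ i.val + m ∧ q.val / 2 + c = i.val + m ∧
        (i.val + m < p.val / 2 + c → q.val % 2 = p.val % 2) ∧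
        (p.val / 2 + c < i.val + m → q.val % 2 = 1 - p.val % 2) ∧ k = 2) ∨
      (p.val / 2 + c = i.val + m ∧ p.val % 2 = 0 ∧ q.val / 2 + c = i.val + m ∧ q.val % 2 = 1 ∧
        k = 3))
  | _, _, _, _ => False

/-- The centres. -/
def fcen {c m : ℕ} : Option (Fin c) → Fin c ⊕ Fin (2 * m) → Prop
  | some i, .inl z => z = i
  | _, _ => False

variable {c m : ℕ}

lemma fcen_unique (i : Option (Fin c)) (u v : Fin c ⊕ Fin (2 * m)) (h : fcen i u)
    (h' : fcen i v) : u = v := by
  rcases i with _ | i <;> rcases u with u | u <;> rcases v with v | v <;> simp [fcen] at *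
  rw [h, h']

lemma farc_fun (hc : 0 < c) (h2 : c ≤ 2 * m) (g : Fin c → Fin (2 * m) → ℕ)
    (hg : ∀ z p q, fR c m z p → fR c m z q → g z p = g z q → p = q)
    (i : Option (Fin c)) (u w : Fin c ⊕ Fin (2 * m)) (k : ℕ) (w' : Fin c ⊕ Fin (2 * m)) (k' : ℕ)
    (h : farc g i u w k) (h' : farc g i u w' k') : w = w' ∧ k = k' := by
  rcases i with _ | i
  · rcases u with u | u <;> rcases w with w | w <;> rcases w' with w' | w' <;>
      simp only [farc] at h h'
    obtain ⟨a, b⟩ := h
    obtain ⟨a', b'⟩ := h'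
    refine ⟨?_, by omega⟩
    congr 1
    exact Fin.ext (by omega)
  · rcases u with u | u <;> rcases w with w | w <;> rcases w' with w' | w' <;>
      simp only [farc] at h h'
    · -- u in Z, both targets in W
      rcases h with ⟨a, t, ht1, ht2, ht3, ht4, ht5⟩ | ⟨a, b, d, e⟩
      · rcases h' with ⟨a', t', ht1', ht2', ht3', ht4', ht5'⟩ | ⟨a', b', d', e'⟩
        · have := add_mod_inj ht2 ht2' (ht3.symm.trans ht3')
          subst this
          refine ⟨?_, by omega⟩
          congr 1
          exact Fin.ext (by omega)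
        · omega
      · rcases h' with ⟨a', t', ht1', ht2', ht3', ht4', ht5'⟩ | ⟨a', b', d', e'⟩
        · omega
        · refine ⟨?_, by omega⟩
          congr 1
          exact hg u w w' b b' (by omega)
    · obtain ⟨a, t, P, ht1, ht2, ht3, ht4, ht5, ht6, ht7⟩ := h
      obtain ⟨a', t', P', ht1', ht2', ht3', ht4', ht5', ht6', ht7'⟩ := h'
      obtain ⟨rfl, rfl⟩ := fy_idx c m i hc h2 ht2 ht2' ht4 ht5 ht4' ht5' (ht6.trans ht6'.symm)
      refine ⟨?_, by omega⟩
      congr 1
      exact Fin.ext (by omega)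
    · obtain ⟨a, t, P, ht1, ht2, ht3, ht4, ht5, ht6, ht7⟩ := h
      omega
    · obtain ⟨a, t, P, ht1, ht2, ht3, ht4, ht5, ht6, ht7⟩ := h'
      omega
    · obtain ⟨a, b⟩ := h
      obtain ⟨a', b'⟩ := h'
      have hu : u.val % 2 < 2 := Nat.mod_lt _ (by norm_num)
      have key : w.val % 2 = w'.val % 2 ∧ w.val / 2 = w'.val / 2 ∧ k = k' := by
        rcases b with ⟨b1, b2, b3, b4, b5⟩ | ⟨b1, b2, b3, b4, b5⟩ <;>
        rcases b' with ⟨b1', b2', b3', b4', b5'⟩ | ⟨b1', b2', b3', b4', b5'⟩
        · refine ⟨?_, by omega, by omega⟩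
          rcases lt_or_gt_of_ne b1 with hlt | hlt
          · rw [b4 hlt, b4' hlt]
          · rw [b3 hlt, b3' hlt]
        · omega
        · omega
        · refine ⟨by omega, by omega, by omega⟩
      refine ⟨?_, key.2.2⟩
      congr 1
      exact Fin.ext (by omega)

lemma farc_ne (hc : 0 < c) (g : Fin c → Fin (2 * m) → ℕ)
    (i : Option (Fin c)) (u w : Fin c ⊕ Fin (2 * m)) (k : ℕ)
    (h : farc g i u w k) : u ≠ w ∧ 1 ≤ k ∧ k < 2 * c + 3 := by
  rcases i with _ | i
  · rcases u with u | u <;> rcases w with w | w <;>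
      simp only [farc] at h
    exact ⟨by simp, by omega, by omega⟩
  · rcases u with u | u <;> rcases w with w | w <;> simp only [farc] at h
    · refine ⟨by simp, ?_⟩
      rcases h with ⟨a, t, ht1, ht2, ht3, ht4, ht5⟩ | ⟨a, b, d, e⟩ <;> omega
    · refine ⟨by simp, ?_⟩
      obtain ⟨a, t, P, ht1, ht2, ht3, ht4, ht5, ht6, ht7⟩ := h
      omega
    · refine ⟨?_, by omega⟩
      intro heq
      have : u = w := by simpa using heq
      subst this
      omega

lemma farc_mono (hc : 0 < c) (h2 : c ≤ 2 * m) (g : Fin c → Fin (2 * m) → ℕ)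
    (i : Option (Fin c)) (u w : Fin c ⊕ Fin (2 * m)) (k : ℕ) (w' : Fin c ⊕ Fin (2 * m)) (k' : ℕ)
    (h : farc g i u w k) (h' : farc g i w w' k') : k < k' := by
  rcases i with _ | i
  · rcases u with u | u <;> rcases w with w | w <;> rcases w' with w' | w' <;>
      simp only [farc] at h h'
  · rcases u with u | u <;> rcases w with w | w <;> rcases w' with w' | w' <;>
      simp only [farc] at h h'
    · -- Z → W → Z
      obtain ⟨a', t', P', ht1', ht2', ht3', ht4', ht5', ht6', ht7'⟩ := h'
      rcases h with ⟨a, t, ht1, ht2, ht3, ht4, ht5⟩ | ⟨a, b, d, e⟩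
      · by_cases htc : t + 1 < c
        · have mono := fy_strictMono c m i hc h2
          obtain ⟨h3, -⟩ := fy_idx c m i hc h2 htc ht2' (le_refl _) (mono (by omega)) ht4' ht5'
            (ht4.trans ht6'.symm)
          omega
        · exfalso
          have htc' : t + 1 = 0 + c := by omega
          have mono := fy_strictMono c m i hc h2
          have e0 := fy_add c m i 0 hc
          rw [htc', e0] at ht4
          rw [Nat.add_mod_right] at ht4
          obtain ⟨h3, -⟩ := fy_idx c m i hc h2 hc ht2' (le_refl _) (mono (by omega)) ht4' ht5'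
            (ht4.trans ht6'.symm)
          omega
      · omega
    · -- Z → W → W
      rcases h with ⟨a, t, ht1, ht2, ht3, ht4, ht5⟩ | ⟨a, b, d, e⟩
      · omega
      · omega
    · -- W → Z → W
      obtain ⟨a, t, P, ht1, ht2, ht3, ht4, ht5, ht6, ht7⟩ := h
      rcases h' with ⟨a', t', ht1', ht2', ht3', ht4', ht5'⟩ | ⟨a', b', d', e'⟩
      · have := add_mod_inj ht2 ht2' (ht3.symm.trans ht3')
        omega
      · omega
    · -- W → W → Z
      obtain ⟨a', t', P', ht1', ht2', ht3', ht4', ht5', ht6', ht7'⟩ := h'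
      omega
    · -- W → W → W
      omega

lemma fcen_out (hc : 0 < c) (g : Fin c → Fin (2 * m) → ℕ)
    (hg' : ∀ z p, fR c m z p → g z p + c ≠ z.val + m)
    (i : Option (Fin c)) (z w : Fin c ⊕ Fin (2 * m)) (k : ℕ)
    (h : fcen i z) (h' : farc g i z w k) : False := by
  rcases i with _ | i
  · rcases z with z | z <;> simp [fcen] at h
  · rcases z with z | z
    · simp only [fcen] at h
      subst h
      rcases w with w | w <;> simp only [farc] at h'
      rcases h' with ⟨a, t, ht1, ht2, ht3, ht4, ht5⟩ | ⟨a, b, d, e⟩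
      · have h0 : (z.val + 0) % c = (z.val + t) % c := by
          rw [← ht3, add_zero, Nat.mod_eq_of_lt z.2]
        have := add_mod_inj hc ht2 h0
        omega
      · exact hg' z w b d
    · simp [fcen] at h

lemma fcen_in (hc : 0 < c) (g : Fin c → Fin (2 * m) → ℕ)
    (i : Option (Fin c)) (z u : Fin c ⊕ Fin (2 * m)) (k : ℕ)
    (h : fcen i z) (h' : farc g i u z k) : False := by
  rcases i with _ | i
  · rcases z with z | z <;> simp [fcen] at h
  · rcases z with z | z
    · simp only [fcen] at h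
      subst h
      rcases u with u | u <;> simp only [farc] at h'
      obtain ⟨a, t, P, ht1, ht2, ht3, ht4, ht5, ht6, ht7⟩ := h'
      have h0 : (z.val + 0) % c = (z.val + t) % c := by
        rw [← ht3, add_zero, Nat.mod_eq_of_lt z.2]
      have := add_mod_inj hc ht2 h0
      omega
    · simp [fcen] at h

/-- coverage of the pairs with one end in `Z` -/
lemma fcover_ZW (hc : 0 < c) (hmc : m ≤ c) (g : Fin c → Fin (2 * m) → ℕ)
    (hg : ∀ z p, fR c m z p → g z p < m) (z : Fin c) (p : Fin (2 * m)) :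
    ∃ i k, farc g i (.inl z) (.inr p) k ∨ farc g i (.inr p) (.inl z) k := by
  by_cases hR : fR c m z p
  · have := hg z p hR
    refine ⟨some ⟨g z p + c - m, by omega⟩, 1, Or.inl ?_⟩
    simp only [farc]
    right
    exact ⟨by omega, hR, by omega, trivial⟩
  · unfold fR at hR
    push Not at hR
    obtain ⟨j, P, hj, hjz, h1, h2, h3⟩ := hR
    have hz := z.2
    have hjc : j < c := by omega
    -- the index
    obtain ⟨t, ht1, ht2, ht3, s, hs1, hs2⟩ : ∃ t, 1 ≤ t ∧ t < c ∧ z.val = (j + t) % c ∧ ∃ s,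
        fy c m j t = fA c m (z.val + j) + j + 2 * m * s ∧
        fy c m j (t + 1) = fA c m (z.val + j + 1) + j + 2 * m * s := by
      rcases lt_or_gt_of_ne hjz with hlt | hlt
      · refine ⟨z.val - j, by omega, by omega, ?_, 0, ?_, ?_⟩
        · rw [show j + (z.val - j) = z.val by omega, Nat.mod_eq_of_lt hz]
        · unfold fy
          rw [show 2 * j + (z.val - j) = z.val + j by omega]; ring
        · unfold fy
          rw [show 2 * j + (z.val - j + 1) = z.val + j + 1 by omega]; ring
      · refine ⟨z.val + c - j, by omega, by omega, ?_, 1, ?_, ?_⟩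
        · rw [show j + (z.val + c - j) = z.val + c by omega, Nat.add_mod_right,
            Nat.mod_eq_of_lt hz]
        · unfold fy
          rw [show 2 * j + (z.val + c - j) = (z.val + j) + c by omega, fA_add _ _ _ hc]; ring
        · unfold fy
          rw [show 2 * j + (z.val + c - j + 1) = (z.val + j + 1) + c by omega,
            fA_add _ _ _ hc]; ring
    by_cases hP : P < fA c m (z.val + j + 1) + j
    · refine ⟨some ⟨j, hjc⟩, 2 * t + 1, Or.inr ?_⟩
      simp only [farc]
      refine ⟨hj, t, P + 2 * m * s, ht1, ht2, ht3, ?_, ?_, ?_, rfl⟩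
      · rw [hs1]; omega
      · rw [hs2]; omega
      · rw [Nat.add_mul_mod_self_left, h3]
    · refine ⟨some ⟨j, hjc⟩, 2 * t + 2, Or.inl ?_⟩
      simp only [farc]
      left
      refine ⟨hj, t, ht1, ht2, ht3, ?_, rfl⟩
      have : P = fA c m (z.val + j + 1) + j := by omega
      rw [hs2, Nat.add_mul_mod_self_left, ← this, h3]

lemma fcover_WW (hmc : m ≤ c) (g : Fin c → Fin (2 * m) → ℕ) (p q : Fin (2 * m))
    (hpq : p.val / 2 < q.val / 2 ∨ (p.val / 2 = q.val / 2 ∧ p.val % 2 = 0 ∧ q.val % 2 = 1)) :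
    ∃ i k, farc g i (.inr p) (.inr q) k ∨ farc g i (.inr q) (.inr p) k := by
  have hp := p.2
  have hq := q.2
  rcases hpq with hlt | ⟨h1, h2, h3⟩
  · by_cases hpar : p.val % 2 = q.val % 2
    · refine ⟨some ⟨p.val / 2 + c - m, by omega⟩, 2, Or.inr ?_⟩
      simp only [farc]
      refine ⟨by omega, Or.inl ⟨by omega, by omega, ?_, ?_, trivial⟩⟩
      · intro _; exact hpar
      · intro h; omega
    · refine ⟨some ⟨q.val / 2 + c - m, by omega⟩, 2, Or.inl ?_⟩
      simp only [farc]
      refine ⟨by omega, Or.inl ⟨by omega, by omega, ?_, ?_, trivial⟩⟩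
      · intro h; omega
      · intro h; omega
  · refine ⟨some ⟨p.val / 2 + c - m, by omega⟩, 3, Or.inl ?_⟩
    simp only [farc]
    exact ⟨by omega, Or.inr ⟨by omega, h2, by omega, h3, trivial⟩⟩


/-- the staircases at `z` cover an interval -/
lemma stair (c m z b : ℕ) (P : ℕ) (h1 : fA c m z ≤ P)
    (h2 : P < fA c m (z + b) + b) : ∃ j, j < b ∧ fA c m (z + j) + j ≤ P ∧
      P ≤ fA c m (z + j + 1) + j := by
  induction b with
  | zero =>
    simp only [add_zero] at h2
    omega
  | succ b ih =>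
    have e : z + (b + 1) = z + b + 1 := by omega
    rw [e] at h2
    by_cases h : P < fA c m (z + b) + b
    · obtain ⟨j, hj, hj'⟩ := ih h
      exact ⟨j, by omega, hj'⟩
    · exact ⟨b, by omega, by omega, by omega⟩

open Classical in
lemma card_fR (hc : 0 < c) (hm : 3 ≤ m) (hmc : m < c) (hkey : m + 3 ≤ fA c m (c - m) + (c - m))
    (z : Fin c) :
    (univ.filter (fun p => fR c m z p)).card ≤
      (univ.filter (fun t : Fin m => t.val + c ≠ z.val + m)).card := by
  have h2m : 0 < 2 * m := by omega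
  -- the right-hand side
  have hR : (if z.val + m < c then m else m - 1) ≤
      (univ.filter (fun t : Fin m => t.val + c ≠ z.val + m)).card := by
    split_ifs with hz
    · have : (univ.filter (fun t : Fin m => t.val + c ≠ z.val + m)) = univ := by
        rw [Finset.filter_true_of_mem]
        intro t _; omega
      rw [this]; simp
    · have hz' := z.2
      have : univ.erase (⟨z.val + m - c, by omega⟩ : Fin m) ⊆
          (univ.filter (fun t : Fin m => t.val + c ≠ z.val + m)) := by
        intro t ht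
        simp only [mem_erase, mem_univ, and_true] at ht
        simp only [mem_filter, mem_univ, true_and]
        intro h
        apply ht
        apply Fin.ext
        simp only
        omega
      calc m - 1 = (univ.erase (⟨z.val + m - c, by omega⟩ : Fin m)).card := by
            rw [card_erase_of_mem (mem_univ _)]; simp
        _ ≤ _ := card_le_card this
  refine le_trans ?_ hR
  -- the left-hand side
  set b := c - m with hb
  set I1 := Finset.Ico (fA c m (z.val + b) + b) (fA c m z.val + 2 * m) with hI1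
  set I2 := if z.val + m < c then Finset.Icc (fA c m (z.val + z.val) + z.val)
    (fA c m (z.val + z.val + 1) + z.val) else ∅ with hI2
  have hsub : (univ.filter (fun p => fR c m z p)) ⊆
      (I1 ∪ I2).image (fun P => (⟨P % (2 * m), Nat.mod_lt _ h2m⟩ : Fin (2 * m))) := by
    intro p hp
    simp only [mem_filter, mem_univ, true_and] at hp
    obtain ⟨P, hP1, hP2, hP3⟩ : ∃ P, fA c m z.val ≤ P ∧ P < fA c m z.val + 2 * m ∧
        P % (2 * m) = p.val := by
      refine ⟨fA c m z.val + (p.val + 2 * m * (fA c m z.val) - fA c m z.val) % (2 * m),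
        by omega, by have := Nat.mod_lt (p.val + 2 * m * (fA c m z.val) - fA c m z.val) h2m; omega,
        ?_⟩
      have hle : fA c m z.val ≤ p.val + 2 * m * (fA c m z.val) := by nlinarith
      rw [Nat.add_mod, Nat.mod_mod, ← Nat.add_mod, Nat.add_sub_cancel' hle,
        Nat.add_mul_mod_self_left, Nat.mod_eq_of_lt p.2]
    rw [mem_image]
    refine ⟨P, ?_, Fin.ext hP3⟩
    rw [mem_union]
    by_cases hcase : P < fA c m (z.val + b) + b
    · right
      obtain ⟨j, hj, hj1, hj2⟩ := stair c m z.val b P hP1 hcase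
      have hjz : j = z.val := by
        by_contra hne
        exact hp ⟨j, P, by omega, hne, hj1, hj2, hP3⟩
      subst hjz
      rw [hI2, if_pos (by omega)]
      exact Finset.mem_Icc.mpr ⟨hj1, hj2⟩
    · left
      rw [hI1]
      exact Finset.mem_Ico.mpr ⟨by omega, hP2⟩
  have hcard1 : I1.card = fA c m z.val + 2 * m - (fA c m (z.val + b) + b) := by
    rw [hI1, Nat.card_Ico]
  have hsup := fA_super c m z.val b
  have hcard2 : I2.card ≤ if z.val + m < c then 3 else 0 := by
    rw [hI2]
    split_ifs with h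
    · rw [Nat.card_Icc]
      have := fA_succ_le c m (z.val + z.val) hc hmc.le
      omega
    · simp
  calc (univ.filter (fun p => fR c m z p)).card
      ≤ ((I1 ∪ I2).image (fun P => (⟨P % (2 * m), Nat.mod_lt _ h2m⟩ : Fin (2 * m)))).card :=
        card_le_card hsub
    _ ≤ (I1 ∪ I2).card := card_image_le
    _ ≤ I1.card + I2.card := card_union_le _ _
    _ ≤ _ := by
      split_ifs at hcard2 ⊢ <;> omega

lemma exists_g (hc : 0 < c) (hm : 3 ≤ m) (hmc : m < c)
    (hkey : m + 3 ≤ fA c m (c - m) + (c - m)) :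
    ∃ g : Fin c → Fin (2 * m) → ℕ,
      (∀ z p q, fR c m z p → fR c m z q → g z p = g z q → p = q) ∧
      (∀ z p, fR c m z p → g z p < m) ∧ (∀ z p, fR c m z p → g z p + c ≠ z.val + m) := by
  classical
  have hex : ∀ z : Fin c, Nonempty ({p // fR c m z p} ↪ {t : Fin m // t.val + c ≠ z.val + m}) := by
    intro z
    apply Function.Embedding.nonempty_of_card_le
    rw [Fintype.card_subtype, Fintype.card_subtype]
    convert card_fR hc hm hmc hkey z
  let e := fun z => (hex z).some
  refine ⟨fun z p => if h : fR c m z p then (e z ⟨p, h⟩).1.val else 0, ?_, ?_, ?_⟩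
  · intro z p q hp hq heq
    simp only [hp, hq, dite_true] at heq
    have : e z ⟨p, hp⟩ = e z ⟨q, hq⟩ := Subtype.ext (Fin.ext heq)
    have := (e z).injective this
    simpa using this
  · intro z p hp
    simp only [hp, dite_true]
    exact (e z ⟨p, hp⟩).1.2
  · intro z p hp
    simp only [hp, dite_true]
    exact (e z ⟨p, hp⟩).2

theorem upper (n c m : ℕ) (hn : 1 ≤ n) (hm : 3 ≤ m) (h2 : c ≤ 2 * m) (hmc : m < c)
    (hkey : m + 3 ≤ fA c m (c - m) + (c - m)) (hn' : n ≤ c + 2 * m) :
    Colourable (⊤ : SimpleGraph (Fin n)) (1/2) (c + 1) := by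
  classical
  have hc : 0 < c := by omega
  obtain ⟨g, hg1, hg2, hg3⟩ := exists_g hc hm hmc hkey
  have : Nonempty (Fin n) := ⟨⟨0, hn⟩⟩
  let e : Fin n → Fin c ⊕ Fin (2 * m) := fun x => finSumFinEquiv.symm (Fin.castLE hn' x)
  have he : Function.Injective e := by
    intro x y hxy
    have := finSumFinEquiv.symm.injective hxy
    simpa [Fin.ext_iff] using this
  have he0 : e ⟨0, hn⟩ = .inl ⟨0, hc⟩ := by
    apply finSumFinEquiv.injective
    simp only [e, Equiv.apply_symm_apply, finSumFinEquiv_apply_left]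
    rfl
  let A : Arr (Fin n) (Option (Fin c)) (2 * c + 3) :=
    { cen := fun i u => fcen i (e u)
      arc := fun i u w k => farc g i (e u) (e w) k
      cen_unique := fun i u v h h' => he (fcen_unique i _ _ h h')
      arc_fun := fun i u w k w' k' h h' => by
        obtain ⟨a, b⟩ := farc_fun hc h2 g hg1 i _ _ _ _ _ h h'
        exact ⟨he a, b⟩
      arc_ne := fun i u w k h => by
        obtain ⟨a, b⟩ := farc_ne hc g i _ _ _ h
        exact ⟨fun h => a (by rw [h]), b⟩
      mono := fun i u w k w' k' h h' => farc_mono hc h2 g i _ _ _ _ _ h h'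
      cen_out := fun i z w k h h' => fcen_out hc g hg3 i _ _ _ h h'
      cen_in := fun i z u k h h' => fcen_in hc g i _ _ _ h h'
      low := by
        intro u
        rcases h : e u with z | p
        · left; exact ⟨some z, by simp [fcen]⟩
        · right; refine ⟨none, ⟨0, hn⟩, ?_⟩
          rw [he0]
          simp [farc]
      cover := by
        intro u v huv
        rcases hu : e u with z | p
        · rcases hv : e v with z' | p'
          · left; exact ⟨⟨some z, by simp [fcen]⟩, ⟨some z', by simp [fcen]⟩⟩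
          · right; exact fcover_ZW hc hmc.le g hg2 z p'
        · rcases hv : e v with z' | p'
          · right
            obtain ⟨i, k, h⟩ := fcover_ZW hc hmc.le g hg2 z' p
            exact ⟨i, k, h.symm⟩
          · right
            have hne : p ≠ p' := by
              intro h
              apply huv
              apply he
              rw [hu, hv, h]
            have hne' : p.val ≠ p'.val := fun h => hne (Fin.ext h)
            have hcases : (p.val / 2 < p'.val / 2 ∨
                (p.val / 2 = p'.val / 2 ∧ p.val % 2 = 0 ∧ p'.val % 2 = 1)) ∨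
                (p'.val / 2 < p.val / 2 ∨
                (p'.val / 2 = p.val / 2 ∧ p'.val % 2 = 0 ∧ p.val % 2 = 1)) := by
              omega
            rcases hcases with h | h
            · exact fcover_WW hmc.le g p p' h
            · obtain ⟨i, k, h⟩ := fcover_WW hmc.le g p' p h
              exact ⟨i, k, h.symm⟩ }
  have := colourable_of_arr A
  simpa using this

/-- The arithmetic form of the hypothesis of `upper`. -/
lemma key_of (c m : ℕ) (hc : 0 < c) (hmc : m < c) (h : 2 * m ^ 2 + 3 * c ≤ c ^ 2) :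
    m + 3 ≤ fA c m (c - m) + (c - m) := by
  unfold fA
  obtain ⟨b, rfl⟩ := Nat.exists_eq_add_of_lt hmc
  rw [show m + b + 1 - m = b + 1 by omega]
  have h1 : m + 3 - (b + 1) ≤ (b + 1) * (2 * m) / (m + b + 1) := by
    rw [Nat.le_div_iff_mul_le hc]
    rcases le_total (b + 1) (m + 3) with hle | hle
    · obtain ⟨d, hd⟩ := Nat.exists_eq_add_of_le hle
      rw [hd, Nat.add_sub_cancel_left]
      have hm : m = b + 1 + d - 3 := by omega
      have h3 : m + 3 = b + 1 + d := by omega
      nlinarith
    · rw [Nat.sub_eq_zero_of_le hle]; omega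
  omega

end Explicit

section Lower

variable {n : ℕ}

/-- `p` lies in the open edge `uv`, nearer to `u`. -/
def Can (p : Pt (⊤ : SimpleGraph (Fin n))) (u v : Fin n) : Prop :=
  u ≠ v ∧ p.w u + p.w v = 1 ∧ p.w u < 1 ∧ (1/2 < p.w u ∨ (p.w u = 1/2 ∧ u < v))

lemma Can.unique {p : Pt (⊤ : SimpleGraph (Fin n))} {u v u' v' : Fin n} (h : Can p u v)
    (h' : Can p u' v') : u = u' ∧ v = v' := by
  obtain ⟨h1, h2, h3, h4⟩ := h
  obtain ⟨h1', h2', h3', h4'⟩ := h'
  have g1 : 1/2 ≤ p.w u := by rcases h4 with h | h; exacts [h.le, h.1.ge]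
  have g1' : 1/2 ≤ p.w u' := by rcases h4' with h | h; exacts [h.le, h.1.ge]
  rcases p.mem_of_pos h2' h1' (x := u) (by linarith) with rfl | rfl
  · rcases p.mem_of_pos h2' h1' (x := v) (by linarith) with rfl | rfl
    · exact absurd rfl h1
    · exact ⟨rfl, rfl⟩
  · rcases p.mem_of_pos h2' h1' (x := v) (by linarith) with rfl | rfl
    · exfalso
      rcases h4 with h | h
      · linarith
      · rcases h4' with h' | h'
        · linarith
        · exact absurd h.2 (not_lt.mpr h'.2.le)
    · exact absurd rfl h1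

variable [NeZero n]

lemma vtx_mem (p : Pt (⊤ : SimpleGraph (Fin n))) (u : Fin n) (h : 1/2 ≤ p.w u) :
    vtx u ∈ ball p (1/2) := by
  rw [mem_ball_half]
  left
  refine ⟨u, ?_⟩
  simp [vtx]; linarith

lemma Can.half {p : Pt (⊤ : SimpleGraph (Fin n))} {u v : Fin n} (h : Can p u v) :
    1/2 ≤ p.w u := by
  obtain ⟨h1, h2, h3, h4⟩ := h
  rcases h4 with h | h
  exacts [h.le, h.1.ge]

lemma edg_u (u v : Fin n) (h : u ≠ v) (x : ℝ) (h0 : 0 ≤ x) (h1 : x ≤ 1) :
    (edg u v h x h0 h1).w u = 1 - x := by simp [edg, h]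

lemma edg_v (u v : Fin n) (h : u ≠ v) (x : ℝ) (h0 : 0 ≤ x) (h1 : x ≤ 1) :
    (edg u v h x h0 h1).w v = x := by simp [edg, h.symm]

lemma edg_other (u v : Fin n) (h : u ≠ v) (x : ℝ) (h0 : 0 ≤ x) (h1 : x ≤ 1) (a : Fin n)
    (ha : a ≠ u) (hb : a ≠ v) : (edg u v h x h0 h1).w a = 0 := by simp [edg, ha, hb]

/-- the ball around `p` with `Can p u v` meets each ball reaching `v` well enough -/
lemma Can.cross {p p' : Pt (⊤ : SimpleGraph (Fin n))} {u v : Fin n} (h : Can p u v)
    (h' : p.w u ≤ p'.w v) : (ball p (1/2) ∩ ball p' (1/2)).Nonempty := by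
  have hh := h.half
  obtain ⟨h1, h2, h3, h4⟩ := h
  have hx0 : (0 : ℝ) ≤ 1/2 + p.w v := by have := p.nonneg v; linarith
  have hx1 : 1/2 + p.w v ≤ 1 := by linarith
  refine ⟨edg u v h1 (1/2 + p.w v) hx0 hx1, ?_, ?_⟩
  · rw [mem_ball_half]
    right
    refine ⟨u, v, h1, h2, ?_, ?_⟩
    · rw [edg_u, edg_v]; ring
    · rw [edg_u, abs_le]; constructor <;> linarith
  · rw [mem_ball_half]
    left
    refine ⟨v, ?_⟩
    rw [edg_v]; linarith

theorem lower_count {c : ℕ} (hn : 2 ≤ n)
    (h : Colourable (⊤ : SimpleGraph (Fin n)) (1/2) c) :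
    ∃ t ≤ c, n * (n - 1) + 2 * t ≤ 2 * (c * (n - 1)) + t * (t - 1) := by
  classical
  obtain ⟨F, hF, hcov, f, hf⟩ := h
  choose pc hpc using (fun B : F => hF B.1 B.2)
  have hinj : ∀ B B' : F, ∀ q, q ∈ ball (pc B) (1/2) → q ∈ ball (pc B') (1/2) →
      f B = f B' → B = B' := by
    intro B B' q hq hq' heq
    by_contra hne
    rw [← hpc] at hq hq'
    exact hf B B' hne ⟨q, hq, hq'⟩ heq
  set Z : Finset (Fin n) := univ.filter (fun v => ∃ B : F, (pc B).w v = 1) with hZ
  set Q : Finset (Fin n × Fin n) := univ.filter (fun e => ∃ B : F, Can (pc B) e.1 e.2) with hQ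
  have hZ' : ∀ z : Z, ∃ B : F, (pc B).w z.1 = 1 := by
    intro z
    exact (mem_filter.mp z.2).2
  choose BZ hBZ using hZ'
  have hQ' : ∀ e : Q, ∃ B : F, Can (pc B) e.1.1 e.1.2 := by
    intro e
    exact (mem_filter.mp e.2).2
  choose BQ hBQ using hQ'
  -- centres at vertices have different colours
  have hZinj : Function.Injective (fun z : Z => f (BZ z)) := by
    intro z z' heq
    by_contra hne
    have hne' : z.1 ≠ z'.1 := fun h => hne (Subtype.ext h)
    have hB : BZ z = BZ z' := by
      refine hinj _ _ (edg z.1 z'.1 hne' (1/2) (by norm_num) (by norm_num)) ?_ ?_ heq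
      · rw [mem_ball_half]; left; refine ⟨z.1, ?_⟩; rw [edg_u, hBZ]; norm_num
      · rw [mem_ball_half]; left; refine ⟨z'.1, ?_⟩; rw [edg_v, hBZ]; norm_num
    have e1 := hBZ z
    have e2 := hBZ z'
    rw [← hB] at e2
    have := (pc (BZ z)).add_le hne'
    linarith
  set ZC : Finset (Fin c) := univ.image (fun z : Z => f (BZ z)) with hZC
  have hZCcard : ZC.card = Z.card := by
    rw [hZC, card_image_of_injective _ hZinj]; simp
  -- each colour
  have hcol : ∀ i : Fin c, (univ.filter (fun e : Q => f (BQ e) = i)).card +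
      (if i ∈ ZC then 1 else 0) ≤ n - 1 := by
    intro i
    set E := univ.filter (fun e : Q => f (BQ e) = i) with hE
    rcases E.eq_empty_or_nonempty with h0 | hne
    · rw [h0]; split_ifs <;> simp <;> omega
    · obtain ⟨e₀, he₀, hmin⟩ := E.exists_min_image (fun e => (pc (BQ e)).w e.1.1) hne
      have hcE : ∀ e ∈ E, f (BQ e) = i := by
        intro e he; rw [hE, mem_filter] at he; exact he.2
      have hsame : ∀ e ∈ E, ∀ e' ∈ E, BQ e = BQ e' → e = e' := by
        intro e he e' he' hB
        have c1 := hBQ e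
        have c2 := hBQ e'
        rw [← hB] at c2
        obtain ⟨a, b⟩ := c1.unique c2
        exact Subtype.ext (Prod.ext a b)
      have hhome : Set.InjOn (fun e : Q => e.1.1) E := by
        intro e he e' he' heq
        simp only at heq
        apply hsame e he e' he'
        refine hinj _ _ (vtx e.1.1) (vtx_mem _ _ (hBQ e).half) ?_ ?_
        · rw [heq]; exact vtx_mem _ _ (hBQ e').half
        · rw [hcE e he, hcE e' he']
      have hA : ∀ e ∈ E, e.1.1 ≠ e₀.1.2 := by
        intro e he heq
        have hm := hmin e he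
        obtain ⟨q, hq, hq'⟩ := (hBQ e₀).cross (p' := pc (BQ e)) (by rw [← heq]; exact hm)
        have hB := hinj _ _ q hq hq' (by rw [hcE e he, hcE e₀ he₀])
        have := hsame e₀ he₀ e he hB
        subst this
        exact (hBQ e₀).1 heq
      by_cases hi : i ∈ ZC
      · rw [if_pos hi]
        rw [hZC, mem_image] at hi
        obtain ⟨z, -, hz⟩ := hi
        have hB : z.1 ≠ e₀.1.2 := by
          intro heq
          have hle : (pc (BQ e₀)).w e₀.1.1 ≤ (pc (BZ z)).w e₀.1.2 := by
            rw [← heq, hBZ]; exact (hBQ e₀).2.2.1.le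
          obtain ⟨q, hq, hq'⟩ := (hBQ e₀).cross hle
          have hB := hinj _ _ q hq hq' (by rw [hcE e₀ he₀]; exact hz.symm)
          have e1 := hBZ z
          rw [← hB, heq] at e1
          have := (hBQ e₀).half
          have := (hBQ e₀).2.1
          linarith
        have hC : ∀ e ∈ E, z.1 ≠ e.1.1 := by
          intro e he heq
          have hB := hinj (BQ e) (BZ z) (vtx e.1.1) (vtx_mem _ _ (hBQ e).half)
            (vtx_mem _ _ (by rw [← heq, hBZ]; norm_num)) (by rw [hcE e he]; exact hz.symm)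
          have e1 := hBZ z
          rw [← hB, heq] at e1
          have := (hBQ e).2.2.1
          linarith
        have hsub : insert z.1 (E.image (fun e : Q => e.1.1)) ⊆ univ.erase e₀.1.2 := by
          intro x hx
          rw [mem_insert, mem_image] at hx
          rw [mem_erase]
          refine ⟨?_, mem_univ _⟩
          rcases hx with rfl | ⟨e, he, rfl⟩
          · exact hB
          · exact hA e he
        have hnot : z.1 ∉ E.image (fun e : Q => e.1.1) := by
          rw [mem_image]
          rintro ⟨e, he, heq⟩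
          exact hC e he heq.symm
        have := card_le_card hsub
        rw [card_insert_of_notMem hnot, card_image_of_injOn hhome,
          card_erase_of_mem (mem_univ _)] at this
        simpa using this
      · rw [if_neg hi]
        have hsub : E.image (fun e : Q => e.1.1) ⊆ univ.erase e₀.1.2 := by
          intro x hx
          rw [mem_image] at hx
          rw [mem_erase]
          refine ⟨?_, mem_univ _⟩
          obtain ⟨e, he, rfl⟩ := hx
          exact hA e he
        have := card_le_card hsub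
        rw [card_image_of_injOn hhome, card_erase_of_mem (mem_univ _)] at this
        simpa using this
  have hsum : Q.card + Z.card ≤ c * (n - 1) := by
    have h1 : Q.card = ∑ i : Fin c, (univ.filter (fun e : Q => f (BQ e) = i)).card := by
      have := Finset.card_eq_sum_card_fiberwise (s := (univ : Finset Q)) (t := (univ : Finset (Fin c)))
        (f := fun e => f (BQ e)) (by intro x _; simp)
      rw [← this]; simp
    have h2 : Z.card = ∑ i : Fin c, (if i ∈ ZC then 1 else 0) := by
      rw [← hZCcard]; simp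
    calc Q.card + Z.card = ∑ i : Fin c, ((univ.filter (fun e : Q => f (BQ e) = i)).card +
          (if i ∈ ZC then 1 else 0)) := by rw [Finset.sum_add_distrib, ← h1, ← h2]
      _ ≤ ∑ i : Fin c, (n - 1) := Finset.sum_le_sum (fun i _ => hcol i)
      _ = c * (n - 1) := by simp
  -- coverage
  have hcover : ∀ u v : Fin n, u ≠ v → u ∉ Z → (u, v) ∈ Q ∨ (v, u) ∈ Q := by
    intro u v huv hu
    have hfin : {B : F | vtx u ∈ ball (pc B) (1/2)}.Finite := by
      apply Set.Finite.of_finite_image (f := f) (Set.toFinite _)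
      intro B hB B' hB' heq
      exact hinj B B' _ hB hB' heq
    obtain ⟨δ, hδ0, hδ1, hδ⟩ : ∃ δ : ℝ, 0 < δ ∧ δ ≤ 1/2 ∧
        ∀ B : F, vtx u ∈ ball (pc B) (1/2) → δ ≤ 1 - (pc B).w u := by
      rcases hfin.toFinset.eq_empty_or_nonempty with h0 | hne
      · refine ⟨1/2, by norm_num, le_refl _, ?_⟩
        intro B hB
        exfalso
        have : B ∈ hfin.toFinset := by simpa using hB
        rw [h0] at this
        simp at this
      · obtain ⟨B₀, hB₀, hmin⟩ := hfin.toFinset.exists_min_image (fun B => 1 - (pc B).w u) hne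
        refine ⟨min (1/2) (1 - (pc B₀).w u), ?_, min_le_left _ _, ?_⟩
        · apply lt_min (by norm_num)
          have h1 := (pc B₀).le_one u
          have h2 : (pc B₀).w u ≠ 1 := by
            intro h
            apply hu
            rw [hZ, mem_filter]
            exact ⟨mem_univ _, B₀, h⟩
          have := lt_of_le_of_ne h1 h2
          linarith
        · intro B hB
          exact (min_le_right _ _).trans (hmin B (by simpa using hB))
    have hx0 : (0 : ℝ) ≤ 1/2 - δ/2 := by linarith
    have hx1 : (1 : ℝ)/2 - δ/2 ≤ 1 := by linarith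
    set q := edg u v huv (1/2 - δ/2) hx0 hx1 with hq
    have qu : q.w u = 1/2 + δ/2 := by rw [hq, edg_u]; ring
    have qv : q.w v = 1/2 - δ/2 := by rw [hq, edg_v]
    have hmem : q ∈ ⋃₀ F := by rw [hcov]; trivial
    obtain ⟨B, hBF, hqB⟩ := hmem
    have hqB' : q ∈ ball (pc ⟨B, hBF⟩) (1/2) := by rw [← hpc]; exact hqB
    set p := pc ⟨B, hBF⟩ with hp
    rw [mem_ball_half] at hqB'
    rcases hqB' with ⟨a, ha⟩ | ⟨a, b, hab, h1, h2, h3⟩
    · exfalso
      have hpa := p.le_one a
      by_cases hau : a = u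
      · subst hau
        have := hδ ⟨B, hBF⟩ (vtx_mem _ _ (by rw [← hp]; linarith))
        rw [← hp] at this
        linarith
      · by_cases hav : a = v
        · subst hav
          linarith
        · have : q.w a = 0 := by rw [hq, edg_other _ _ _ _ _ _ _ hau hav]
          linarith
    · have hkey : p.w u + p.w v = 1 ∧ |p.w u - q.w u| ≤ 1/2 := by
        rcases q.mem_of_pos h2 hab (x := u) (by linarith) with rfl | rfl
        · rcases q.mem_of_pos h2 hab (x := v) (by linarith) with rfl | rfl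
          · exact absurd rfl huv
          · exact ⟨h1, h3⟩
        · rcases q.mem_of_pos h2 hab (x := v) (by linarith) with rfl | rfl
          · refine ⟨by linarith, ?_⟩
            rw [abs_le] at h3 ⊢
            constructor <;> linarith
          · exact absurd rfl huv
      obtain ⟨k1, k2⟩ := hkey
      rw [abs_le] at k2
      have hpu := p.le_one u
      have hpu' : p.w u ≠ 1 := by
        intro h
        apply hu
        rw [hZ, mem_filter]
        exact ⟨mem_univ _, ⟨B, hBF⟩, h⟩
      have hlt := lt_of_le_of_ne hpu hpu'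
      have hQmem : ∀ a b, Can p a b → (a, b) ∈ Q := by
        intro a b hab
        rw [hQ, mem_filter]
        exact ⟨mem_univ _, ⟨B, hBF⟩, hab⟩
      rcases lt_trichotomy (p.w u) (1/2) with hh | hh | hh
      · right
        apply hQmem
        exact ⟨huv.symm, by linarith, by linarith, Or.inl (by linarith)⟩
      · rcases lt_or_gt_of_ne huv with hh' | hh'
        · left
          apply hQmem
          exact ⟨huv, k1, hlt, Or.inr ⟨hh, hh'⟩⟩
        · right
          apply hQmem
          exact ⟨huv.symm, by linarith, by linarith, Or.inr ⟨by linarith, hh'⟩⟩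
      · left
        apply hQmem
        exact ⟨huv, k1, hlt, Or.inl hh⟩
  -- counting the pairs
  have hsub : (univ : Finset (Fin n)).offDiag ⊆ Z.offDiag ∪ (Q ∪ Q.image Prod.swap) := by
    rintro ⟨u, v⟩ huv
    rw [mem_offDiag] at huv
    simp only [mem_union, mem_offDiag, mem_image]
    by_cases hu : u ∈ Z
    · by_cases hv : v ∈ Z
      · left; exact ⟨hu, hv, huv.2.2⟩
      · right
        rcases hcover v u huv.2.2.symm hv with h | h
        · right; exact ⟨(v, u), h, rfl⟩
        · left; exact h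
    · right
      rcases hcover u v huv.2.2 hu with h | h
      · left; exact h
      · right; exact ⟨(v, u), h, rfl⟩
  have hcard := card_le_card hsub
  have h1 := card_union_le Z.offDiag (Q ∪ Q.image Prod.swap)
  have h2 := card_union_le Q (Q.image Prod.swap)
  have h3 : (Q.image Prod.swap).card ≤ Q.card := card_image_le
  rw [offDiag_card, card_univ, Fintype.card_fin] at hcard
  rw [offDiag_card] at h1
  refine ⟨Z.card, ?_, ?_⟩
  · rw [← hZCcard]
    exact (card_le_univ _).trans (by simp)
  · have e1 : n * (n - 1) = n * n - n := by rw [Nat.mul_sub, mul_one]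
    have e2 : Z.card * (Z.card - 1) = Z.card * Z.card - Z.card := by rw [Nat.mul_sub, mul_one]
    rw [e1, e2]
    omega

end Lower

section Final

/-- the balls centred at the vertices -/
lemma trivial_colouring (n : ℕ) (hn : 1 ≤ n) :
    Colourable (⊤ : SimpleGraph (Fin n)) (1/2) n := by
  have : Nonempty (Fin n) := ⟨⟨0, hn⟩⟩
  let A : Arr (Fin n) (Fin n) 1 :=
    { cen := fun i u => i = u
      arc := fun _ _ _ _ => False
      cen_unique := fun i u v h h' => h.symm.trans h'
      arc_fun := fun _ _ _ _ _ _ h _ => h.elim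
      arc_ne := fun _ _ _ _ h => h.elim
      mono := fun _ _ _ _ _ _ h _ => h.elim
      cen_out := fun _ _ _ _ _ h => h
      cen_in := fun _ _ _ _ _ h => h
      low := fun u => Or.inl ⟨u, rfl⟩
      cover := fun u v _ => Or.inl ⟨⟨u, rfl⟩, ⟨v, rfl⟩⟩ }
  have := colourable_of_arr A
  simpa using this

/-- the lower bound in real form -/
lemma lower_real (n c : ℕ) (hn : 1 ≤ n)
    (h : Colourable (⊤ : SimpleGraph (Fin n)) (1/2) c) : (√2 - 1) * n < c := by
  have hs : √2 * √2 = 2 := Real.mul_self_sqrt (by norm_num)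
  have hs0 : 0 ≤ √2 := Real.sqrt_nonneg 2
  have hs1 : √2 < 1.4143 := by
    rw [Real.sqrt_lt' (by norm_num)]; norm_num
  have hs2 : 1.4142 < √2 := by
    rw [Real.lt_sqrt (by norm_num)]; norm_num
  rcases Nat.lt_or_ge n 2 with hlt | hge
  · have : n = 1 := by omega
    subst this
    have hc : 0 < c := by
      obtain ⟨F, -, hcov, f, -⟩ := h
      have : vtx (0 : Fin 1) ∈ ⋃₀ F := by rw [hcov]; trivial
      obtain ⟨B, hB, -⟩ := this
      exact (Nat.zero_le _).trans_lt (f ⟨B, hB⟩).2
    have : (1 : ℝ) ≤ c := by exact_mod_cast hc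
    push_cast
    linarith
  · have : NeZero n := ⟨by omega⟩
    obtain ⟨t, ht, hcount⟩ := lower_count hge h
    have hn1 : ((n - 1 : ℕ) : ℝ) = n - 1 := by push_cast [Nat.cast_sub hn]; ring
    by_contra hcon
    push Not at hcon
    have hnr : (2 : ℝ) ≤ n := by exact_mod_cast hge
    have hcr : (0 : ℝ) ≤ c := by positivity
    have htr : (t : ℝ) ≤ c := by exact_mod_cast ht
    have htr0 : (0 : ℝ) ≤ t := by positivity
    have key : (n : ℝ) * (n - 1) + 2 * t ≤ 2 * (c * (n - 1)) + t * t - t := by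
      rcases Nat.eq_zero_or_pos t with h0 | h0
      · subst h0
        have h1 : ((n * (n - 1) + 2 * 0 : ℕ) : ℝ) ≤ ((2 * (c * (n - 1)) + 0 * (0 - 1) : ℕ) : ℝ) := by
          exact_mod_cast hcount
        push_cast [hn1] at h1
        push_cast
        linarith
      · have h1 : ((n * (n - 1) + 2 * t : ℕ) : ℝ) ≤ ((2 * (c * (n - 1)) + t * (t - 1) : ℕ) : ℝ) := by
          exact_mod_cast hcount
        have ht1 : ((t - 1 : ℕ) : ℝ) = t - 1 := by push_cast [Nat.cast_sub h0]; ring
        push_cast [hn1, ht1] at h1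
        linarith
    -- `t (t - 3) ≤ max 0 (c (c - 3))`
    rcases le_or_gt (c : ℝ) 3 with h3 | h3
    · have : (t : ℝ) * t ≤ 3 * t := by nlinarith
      have h4 : (n : ℝ) * (n - 1) ≤ 2 * (c * (n - 1)) := by linarith
      have h5 : (n : ℝ) ≤ 2 * c := by
        by_contra h6
        push Not at h6
        nlinarith
      nlinarith
    · have h4 : (t : ℝ) * t - 3 * t ≤ c * c - 3 * c := by nlinarith
      have h5 : (n : ℝ) * (n - 1) ≤ 2 * (c * (n - 1)) + c * c - 3 * c := by linarith
      -- with `c ≤ (√2 - 1) n`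
      have h6 : (c : ℝ) * c + 2 * c * n - 5 * c ≤
          ((√2 - 1) * n) * ((√2 - 1) * n) + 2 * ((√2 - 1) * n) * n - 5 * ((√2 - 1) * n) := by
        nlinarith
      have h7 : ((√2 - 1) * n) * ((√2 - 1) * n) + 2 * ((√2 - 1) * n) * n = (n : ℝ) * n := by
        linear_combination ((n : ℝ) * n) * hs
      nlinarith

/-- the upper bound in real form -/
lemma upper_real (n : ℕ) (hn : 1 ≤ n) :
    ∃ c : ℕ, Colourable (⊤ : SimpleGraph (Fin n)) (1/2) c ∧ (c : ℝ) < (√2 - 1) * n + 5 := by
  have hs : √2 * √2 = 2 := Real.mul_self_sqrt (by norm_num)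
  have hs0 : 0 ≤ √2 := Real.sqrt_nonneg 2
  have hs1 : √2 < 1.4143 := by
    rw [Real.sqrt_lt' (by norm_num)]; norm_num
  have hs2 : 1.4142 < √2 := by
    rw [Real.lt_sqrt (by norm_num)]; norm_num
  have hn0 : (1 : ℝ) ≤ n := by exact_mod_cast hn
  rcases Nat.lt_or_ge n 9 with h9 | h9
  · refine ⟨n, trivial_colouring n hn, ?_⟩
    have : (n : ℝ) ≤ 8 := by exact_mod_cast (by omega : n ≤ 8)
    nlinarith
  rcases Nat.lt_or_ge n 13 with h13 | h13
  · refine ⟨6 + 1, upper n 6 3 hn (by norm_num) (by norm_num) (by norm_num)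
      (key_of 6 3 (by norm_num) (by norm_num) (by norm_num)) (by omega), ?_⟩
    have : (9 : ℝ) ≤ n := by exact_mod_cast h9
    push_cast
    nlinarith
  rcases Nat.lt_or_ge n 17 with h17 | h17
  · refine ⟨8 + 1, upper n 8 4 hn (by norm_num) (by norm_num) (by norm_num)
      (key_of 8 4 (by norm_num) (by norm_num) (by norm_num)) (by omega), ?_⟩
    have : (13 : ℝ) ≤ n := by exact_mod_cast h13
    push_cast
    nlinarith
  have hn17 : (17 : ℝ) ≤ n := by exact_mod_cast h17
  obtain ⟨k, hk1, hk2⟩ : ∃ k : ℕ, (√2 - 1) * n ≤ k ∧ (k : ℝ) < (√2 - 1) * n + 1 := by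
    refine ⟨⌈(√2 - 1) * n⌉₊, Nat.le_ceil _, Nat.ceil_lt_add_one ?_⟩
    nlinarith
  set c := k + 2 with hc
  have hcr : (c : ℝ) = k + 2 := by rw [hc]; push_cast; ring
  have hk8 : 7 < k := by
    have : (7 : ℝ) < k := by nlinarith
    exact_mod_cast this
  set m := max ((n - c + 1) / 2) ((c + 1) / 2) with hm
  have hm1 : (n - c + 1) / 2 ≤ m := le_max_left _ _
  have hm2 : (c + 1) / 2 ≤ m := le_max_right _ _
  have hkey : 2 * m ^ 2 + 3 * c ≤ c ^ 2 := by
    have h2m : (2 * m ≤ n - c + 1) ∨ 2 * m ≤ c + 1 := by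
      rcases max_choice ((n - c + 1) / 2) ((c + 1) / 2) with h | h
      · left; rw [hm, h]; omega
      · right; rw [hm, h]; omega
    rcases h2m with h2m | h2m
    · rcases Nat.lt_or_ge n c with hnc | hnc
      · have : m ≤ 0 := by omega
        omega
      · have hx : ((n - c : ℕ) : ℝ) = n - c := by rw [Nat.cast_sub hnc]
        have h3 : (2 : ℝ) * m ≤ n - c + 1 := by
          have : ((2 * m : ℕ) : ℝ) ≤ ((n - c + 1 : ℕ) : ℝ) := by exact_mod_cast h2m
          push_cast [hx] at this
          linarith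
        have h4 : (n : ℝ) ≤ (c - 2) * (√2 + 1) := by
          have : (n : ℝ) = (√2 + 1) * ((√2 - 1) * n) := by linear_combination (-(n : ℝ)) * hs
          rw [this]
          nlinarith
        have h5 : (2 : ℝ) * m ≤ √2 * (c - 2) - 1 := by nlinarith
        have hm0 : (0 : ℝ) ≤ m := by positivity
        have h6 : (2 * (m : ℝ)) ^ 2 ≤ (√2 * (c - 2) - 1) ^ 2 := by
          apply pow_le_pow_left₀ (by positivity) h5
        have h7 : (√2 * ((c : ℝ) - 2) - 1) ^ 2 = 2 * (c - 2) ^ 2 - 2 * √2 * (c - 2) + 1 := by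
          linear_combination ((c : ℝ) - 2) ^ 2 * hs
        have hc9 : (9 : ℝ) ≤ c := by
          have : (9 : ℕ) ≤ c := by omega
          exact_mod_cast this
        have h8 : (2 : ℝ) * m ^ 2 + 3 * c ≤ c ^ 2 := by nlinarith
        exact_mod_cast h8
    · have h9' : 9 ≤ c := by omega
      nlinarith
  have hmc : m < c := by
    by_contra h
    push Not at h
    nlinarith
  refine ⟨c + 1, upper n c m hn (by omega) (by omega) hmc
    (key_of c m (by omega) hmc hkey) (by omega), ?_⟩
  push_cast
  rw [hcr]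
  linarith

theorem chi_bounds (n : ℕ) (hn : 1 ≤ n) :
    (√2 - 1) * n < chi (⊤ : SimpleGraph (Fin n)) (1/2) ∧
      (chi (⊤ : SimpleGraph (Fin n)) (1/2) : ℝ) < (√2 - 1) * n + 5 := by
  obtain ⟨c, hc, hc'⟩ := upper_real n hn
  constructor
  · exact lower_real n _ hn (Nat.sInf_mem (s := {c | Colourable (⊤ : SimpleGraph (Fin n)) (1/2) c})
      ⟨c, hc⟩)
  · refine lt_of_le_of_lt ?_ hc'
    exact_mod_cast Nat.sInf_le (s := {c | Colourable (⊤ : SimpleGraph (Fin n)) (1/2) c}) hc

/-- **Main result.** The half-chromatic number of the continuous complete graph `Γ(K_n)` is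
`(√2 - 1) n` up to an additive constant `5`; so `χ_{1/2}(Γ(K_n)) / n → √2 - 1`, and
`χ_{1/2}(Γ(K_n)) = ⌈n/2⌉` fails for every `n ≥ 59`. -/
theorem result :
    (∀ n : ℕ, 1 ≤ n → (√2 - 1) * n < chi (⊤ : SimpleGraph (Fin n)) (1/2) ∧
      (chi (⊤ : SimpleGraph (Fin n)) (1/2) : ℝ) < (√2 - 1) * n + 5) ∧
    Filter.Tendsto (fun n : ℕ => (chi (⊤ : SimpleGraph (Fin n)) (1/2) : ℝ) / n) Filter.atTop
      (nhds (√2 - 1)) ∧
    (∀ n : ℕ, 59 ≤ n → chi (⊤ : SimpleGraph (Fin n)) (1/2) < ⌈(n : ℚ) / 2⌉₊) := by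
  refine ⟨chi_bounds, ?_, ?_⟩
  · have h1 : Filter.Tendsto (fun n : ℕ => (√2 - 1) + 5 / (n : ℝ)) Filter.atTop
        (nhds ((√2 - 1) + 0)) :=
      tendsto_const_nhds.add (tendsto_const_div_atTop_nhds_zero_nat 5)
    rw [add_zero] at h1
    refine tendsto_of_tendsto_of_tendsto_of_le_of_le' tendsto_const_nhds h1 ?_ ?_
    · filter_upwards [Filter.eventually_ge_atTop 1] with n hn
      have hn0 : (0 : ℝ) < n := by exact_mod_cast hn
      rw [le_div_iff₀ hn0]
      exact (chi_bounds n hn).1.le
    · filter_upwards [Filter.eventually_ge_atTop 1] with n hn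
      have hn0 : (0 : ℝ) < n := by exact_mod_cast hn
      rw [div_le_iff₀ hn0, add_mul, div_mul_cancel₀ _ hn0.ne']
      exact (chi_bounds n hn).2.le
  · intro n hn
    have hs1 : √2 < 1.41422 := by
      rw [Real.sqrt_lt' (by norm_num)]; norm_num
    have h := (chi_bounds n (by omega)).2
    have hn0 : (59 : ℝ) ≤ n := by exact_mod_cast hn
    have h2 : (chi (⊤ : SimpleGraph (Fin n)) (1/2) : ℝ) < (n : ℝ) / 2 := by nlinarith
    rw [Nat.lt_ceil]
    have h3 : ((chi (⊤ : SimpleGraph (Fin n)) (1/2) : ℚ) : ℝ) < (((n : ℚ) / 2 : ℚ) : ℝ) := by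
      push_cast
      exact h2
    exact_mod_cast h3

end Final

end Pool.Agent.Results.MP_4befb3_co.SqrtTwo
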